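import Pool.Agent.Lib.MP_1211f9_al.Mg.G005

/-! Campaign WB (MP_1211f9_al), task N: intervals are thin and near, without 6-wheels -/

set_option autoImplicit false

namespace Pool.Agent.Lib.MP_1211f9_al.WB

open Pool.Agent.Lib.MP_1211f9_al Pool.Agent.Lib.MP_1211f9_al.BK

variable {V : Type*} {X : SimpleGraph V}

/-- PROOF. Suppose `d(u,w) ≥ 3` and all points of the geodesics from `u` to `w` have the distance `l` from `p`. Take `w'` on such a
geodesic with `d(u,w') = 3` (`exists_between`): the geodesics from `u` to `w'` are part of geodesics from `u` to `w`; `no_long`. -/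
theorem short (hX : WBr X) (h6 : NoWheel6 X) {p u w : V} {l : ℕ}
    (h : ∀ x, X.dist u x + X.dist x w = X.dist u w → X.dist p x = l) : X.dist u w ≤ 2 := by
  by_contra hlt
  obtain ⟨w', h1, h2⟩ := exists_between hX.conn u w (r := 3) (by omega)
  refine no_long hX h6 (p := p) (l := l) h1 fun x hx => h x ?_
  have h3 := hX.conn.dist_triangle (u := x) (v := w') (w := w)
  have h4 := hX.conn.dist_triangle (u := u) (v := x) (w := w)
  omega

/-- The distance of `p` to the interval of `a` and `b` is at most the Gromov product plus one. PROOF. Let `q0` be a point of a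
geodesic from `a` to `b` with `l = d(p,q0)` minimal (`Nat.find`), `C = {w | d(p,w) ≤ l}`, convex by `ballc`. `lev X C a = d(p,a) - l`
(`exists_between` for `a, p`; `l ≤ d(p,a)`), in the same way for `b`. `proj` for `a`, `q0`: `a' ∈ C`, `d(a,a') = d(p,a) - l`,
`d(a,a') + d(a',q0) = d(a,q0)`, so `a'` is on a geodesic from `a` to `b`, `d(p,a') = l`. `proj` for `b`, `a'`: `b' ∈ C`, `d(b,b') = d(p,b) - l`,
`d(b,b') + d(b',a') = d(b,a')`. Every `x` on a geodesic from `a'` to `b'` is on one from `a` to `b` and belongs to `C`, so `d(p,x) = l`; by `short`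
`d(a',b') ≤ 2`. `q = a'`: `2 l + d(a,b) = 2 l + (d(p,a) - l) + d(a',b') + (d(p,b) - l)`. -/
theorem near2 (hX : WBr X) (h6 : NoWheel6 X) (a b p : V) :
    ∃ q, X.dist a q + X.dist q b = X.dist a b ∧
      2 * X.dist q p + X.dist a b ≤ X.dist a p + X.dist b p + 2 := by
  classical
  have hex : ∃ n, ∃ q, X.dist a q + X.dist q b = X.dist a b ∧ X.dist p q = n :=
    ⟨X.dist p a, a, by rw [SimpleGraph.dist_self]; omega, rfl⟩
  obtain ⟨l, ⟨q0, hq0, hq0l⟩, hmin⟩ : ∃ l, (∃ q, X.dist a q + X.dist q b = X.dist a b ∧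
      X.dist p q = l) ∧ ∀ q, X.dist a q + X.dist q b = X.dist a b → l ≤ X.dist p q :=
    ⟨Nat.find hex, Nat.find_spec hex, fun q hq => Nat.find_min' hex ⟨q, hq, rfl⟩⟩
  have hC : GConvex X {w | X.dist p w ≤ l} := ballc hX p l
  have hq0C : q0 ∈ {w | X.dist p w ≤ l} := hq0l.le
  have hla : l ≤ X.dist p a := hmin a (by rw [SimpleGraph.dist_self]; omega)
  have hlb : l ≤ X.dist p b := hmin b (by rw [SimpleGraph.dist_self]; omega)
  have hlev : ∀ c, l ≤ X.dist p c → lev X {w | X.dist p w ≤ l} c ≤ X.dist p c - l := by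
    intro c hc
    have hcp : X.dist c p = X.dist p c := SimpleGraph.dist_comm
    obtain ⟨c', h1, h2⟩ := exists_between hX.conn c p (r := X.dist c p - l) (by omega)
    have h3 : c' ∈ {w | X.dist p w ≤ l} := by
      have h4 : X.dist p c' = X.dist c' p := SimpleGraph.dist_comm
      change X.dist p c' ≤ l
      omega
    have h5 := lev_le (X := X) h3 c
    omega
  obtain ⟨a', ha', ha1, ha2⟩ := proj hX hC (a := a) hq0C
  have hab : X.dist a a' + X.dist a' b = X.dist a b := by
    have h3 := hX.conn.dist_triangle (u := a') (v := q0) (w := b)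
    have h4 := hX.conn.dist_triangle (u := a) (v := a') (w := b)
    omega
  have ha'l : X.dist p a' = l := le_antisymm ha' (hmin a' hab)
  obtain ⟨b', hb', hb1, hb2⟩ := proj hX hC (a := b) ha'
  have hshort : X.dist a' b' ≤ 2 := by
    refine short hX h6 (p := p) (l := l) fun x hx => ?_
    have h1 : x ∈ {w | X.dist p w ≤ l} := hC a' ha' b' hb' x hx
    refine le_antisymm h1 (hmin x ?_)
    have h2 := hX.conn.dist_triangle (u := a) (v := a') (w := x)
    have h3 := hX.conn.dist_triangle (u := x) (v := b') (w := b)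
    have h4 := hX.conn.dist_triangle (u := a) (v := x) (w := b)
    have h5 : X.dist b' b = X.dist b b' := SimpleGraph.dist_comm
    have h6 : X.dist b' a' = X.dist a' b' := SimpleGraph.dist_comm
    have h7 : X.dist b a' = X.dist a' b := SimpleGraph.dist_comm
    omega
  refine ⟨a', hab, ?_⟩
  have e1 := hlev a hla
  have e2 := hlev b hlb
  have h6 : X.dist b' a' = X.dist a' b' := SimpleGraph.dist_comm
  have h7 : X.dist b a' = X.dist a' b := SimpleGraph.dist_comm
  have h8 : X.dist a' p = X.dist p a' := SimpleGraph.dist_comm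
  have h9 : X.dist a p = X.dist p a := SimpleGraph.dist_comm
  have h10 : X.dist b p = X.dist p b := SimpleGraph.dist_comm
  omega

/-- PROOF. Every `x` on a geodesic from `q` to `q'` has `d(a,x) ≤ d(a,q)` and `d(b,x) ≤ d(b,q)` (`ballc`), so `d(a,x) = d(a,q)`; `short`
with `p = a`. -/
theorem thin2 (hX : WBr X) (h6 : NoWheel6 X) {a b q q' : V}
    (hq : X.dist a q + X.dist q b = X.dist a b) (hq' : X.dist a q' + X.dist q' b = X.dist a b)
    (h : X.dist a q = X.dist a q') : X.dist q q' ≤ 2 := by
  refine short hX h6 (p := a) (l := X.dist a q) fun x hx => ?_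
  have h1 : X.dist a x ≤ X.dist a q :=
    ballc hX a (X.dist a q) q (le_refl (X.dist a q)) q' h.ge x hx
  have h2 : X.dist b q = X.dist q b := SimpleGraph.dist_comm
  have h3 : X.dist b q' = X.dist q' b := SimpleGraph.dist_comm
  have h4 : X.dist b q' ≤ X.dist b q := by omega
  have h5 : X.dist b x ≤ X.dist b q :=
    ballc hX b (X.dist b q) q (le_refl (X.dist b q)) q' h4 x hx
  have h6 := hX.conn.dist_triangle (u := a) (v := x) (w := b)
  have h7 : X.dist b x = X.dist x b := SimpleGraph.dist_comm
  omega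

end Pool.Agent.Lib.MP_1211f9_al.WB
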