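import Pool.Agent.Lib.MP_1211f9_al.Mg.G005

/-! Campaign WB (MP_1211f9_al), task P: hyperbolicity from near points of intervals and thin intervals -/

set_option autoImplicit false

namespace Pool.Agent.Lib.MP_1211f9_al.WB

open Pool.Agent.Lib.MP_1211f9_al Pool.Agent.Lib.MP_1211f9_al.BK

variable {V : Type*} {X : SimpleGraph V}

private theorem WBP_half (hX : X.Connected) (A B : ℕ)
    (hnear : ∀ a b p : V, ∃ q, X.dist a q + X.dist q b = X.dist a b ∧
      2 * X.dist q p + X.dist a b ≤ X.dist a p + X.dist b p + A)
    (hthin : ∀ a b q q' : V, X.dist a q + X.dist q b = X.dist a b →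
      X.dist a q' + X.dist q' b = X.dist a b → X.dist a q = X.dist a q' → X.dist q q' ≤ B)
    {a b c p q o : V}
    (hq : X.dist a q + X.dist q b = X.dist a b) (ho : X.dist a o + X.dist o b = X.dist a b)
    (h1 : 2 * X.dist q p + X.dist a b ≤ X.dist a p + X.dist b p + A)
    (h2 : 2 * X.dist o c + X.dist a b ≤ X.dist a c + X.dist b c + A)
    (hqo : X.dist a q ≤ X.dist a o) :
    X.dist a b + X.dist c p ≤ X.dist a c + X.dist b p + (3 * A + 2 * B) := by
  obtain ⟨q', q1, q2⟩ := exists_between hX a o (r := X.dist a q) hqo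
  have t1 := hX.dist_triangle (u := q') (v := o) (w := b)
  have t2 := hX.dist_triangle (u := a) (v := q') (w := b)
  have hq' : X.dist a q' + X.dist q' b = X.dist a b := by omega
  have h3 := hthin a b q q' hq hq' q1.symm
  obtain ⟨r, r1, r2⟩ := hnear a c q'
  have t3 := hX.dist_triangle (u := c) (v := o) (w := q')
  have t4 := hX.dist_triangle (u := b) (v := o) (w := c)
  have t5 := hX.dist_triangle (u := a) (v := r) (w := p)
  have t6 := hX.dist_triangle (u := c) (v := r) (w := p)
  have t7 := hX.dist_triangle (u := r) (v := q') (w := p)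
  have t8 := hX.dist_triangle (u := q') (v := q) (w := p)
  rw [SimpleGraph.dist_comm (u := c) (v := o), SimpleGraph.dist_comm (u := o) (v := q')] at t3
  rw [SimpleGraph.dist_comm (u := b) (v := o)] at t4
  rw [SimpleGraph.dist_comm (u := c) (v := r)] at t6
  rw [SimpleGraph.dist_comm (u := q') (v := q)] at t8
  omega

/-- PROOF. As `half` and `fourPoint` at the end of `H1.lean` (there `A = 8`, `B = 1`, `26 = 3 A + 2 B`; replace `near hX h6` by `hnear` and
`thin hX h6` by `hthin`; generalise the constants). -/
theorem fourPoint_of (hX : X.Connected) (A B : ℕ)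
    (hnear : ∀ a b p : V, ∃ q, X.dist a q + X.dist q b = X.dist a b ∧
      2 * X.dist q p + X.dist a b ≤ X.dist a p + X.dist b p + A)
    (hthin : ∀ a b q q' : V, X.dist a q + X.dist q b = X.dist a b →
      X.dist a q' + X.dist q' b = X.dist a b → X.dist a q = X.dist a q' → X.dist q q' ≤ B) :
    FourPoint X (3 * A + 2 * B) := by
  intro a b c p
  obtain ⟨q, q1, q2⟩ := hnear a b p
  obtain ⟨o, o1, o2⟩ := hnear a b c
  rcases le_total (X.dist a q) (X.dist a o) with h | h
  · have h1 := WBP_half hX A B hnear hthin q1 o1 q2 o2 h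
    have h2 := le_max_left (X.dist a c + X.dist b p) (X.dist a p + X.dist b c)
    omega
  · have e1 : X.dist b q + X.dist q a = X.dist b a := by
      rw [SimpleGraph.dist_comm (u := b) (v := q), SimpleGraph.dist_comm (u := q) (v := a),
        SimpleGraph.dist_comm (u := b) (v := a)]
      omega
    have e2 : X.dist b o + X.dist o a = X.dist b a := by
      rw [SimpleGraph.dist_comm (u := b) (v := o), SimpleGraph.dist_comm (u := o) (v := a),
        SimpleGraph.dist_comm (u := b) (v := a)]
      omega
    have h1 := WBP_half hX A B hnear hthin (a := b) (b := a) (c := c) (p := p) e1 e2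
      (by rw [SimpleGraph.dist_comm (u := b) (v := a)]; omega)
      (by rw [SimpleGraph.dist_comm (u := b) (v := a)]; omega)
      (by
        rw [SimpleGraph.dist_comm (u := b) (v := q), SimpleGraph.dist_comm (u := b) (v := o)]
        omega)
    rw [SimpleGraph.dist_comm (u := b) (v := a)] at h1
    have h2 := le_max_right (X.dist a c + X.dist b p) (X.dist a p + X.dist b c)
    omega

end Pool.Agent.Lib.MP_1211f9_al.WB
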