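import Pool.Agent.Lib.MP_1211f9_al.WB.D
import Pool.Agent.Lib.MP_1211f9_al.WB.N
import Pool.Agent.Lib.MP_1211f9_al.WB.P
import Pool.Agent.Lib.MP_1211f9_al.BK.F1

/-! Campaign WB (MP_1211f9_al), Z: bucolic complexes with hyperbolic pieces, derivations -/

set_option autoImplicit false

namespace Pool.Agent.Lib.MP_1211f9_al.WB

open Pool.Agent.Lib.MP_1211f9_al Pool.Agent.Lib.MP_1211f9_al.BK

variable {V : Type*} {X : SimpleGraph V} {G : Type*} [Group G] [MulAction G V]

/-- Weakly bridged graphs without 6-wheels are hyperbolic. -/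
theorem fourPoint_ten (hX : WBr X) (h6 : NoWheel6 X) : FourPoint X 10 :=
  fourPoint_of hX.conn 2 2 (fun a b p => near2 hX h6 a b p)
    (fun _ _ _ _ hq hq' h => thin2 hX h6 hq hq' h)

theorem wbr_noC5 (hX : WBr X) (h5 : NoWheel5 X) (a : Fin 5 → V) (ha : Function.Injective a) :
    ¬ ∀ i j, X.Adj (a i) (a j) ↔ (j = i + 1 ∨ i = j + 1) :=
  noC5_of_noWheel5 hX.conn hX.tc hX.nosq h5 a ha

theorem wbr_bridged (hX : WBr X) (h5 : NoWheel5 X) : Bridged X :=
  bridged_of_noIsometricCycle hX.conn fun n hn c =>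
    no_iso_cycle hX.conn hX.tc hX.qc hX.nosq (wbr_noC5 hX h5) n hn c

theorem wbr_noHexagon (hX : WBr X) (h5 : NoWheel5 X) (h6 : NoWheel6 X) : NoHexagon X :=
  fun a ha => noHexagon_of_noWheel6 hX.conn hX.qc hX.nosq (wbr_noC5 hX h5) h6 a ha

/-- (a) No induced 5-wheels and 6-wheels, or (b) no induced 5-wheels, Gromov hyperbolic and no infinite cliques, or
(c) cliques of bounded size, and no induced 6-wheels or Gromov hyperbolic. -/
def Good (X : SimpleGraph V) : Prop :=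
  (NoWheel5 X ∧ (NoWheel6 X ∨ (Hyperbolic X ∧ ∀ S : Set V, X.IsClique S → S.Finite))) ∨
    ((∃ n : ℕ, X.CliqueFree n) ∧ (NoWheel6 X ∨ Hyperbolic X))

/-- The dichotomy for weakly bridged graphs. -/
theorem good_main (hX : WBr X) (hgood : Good X) (hG : Group.FG G)
    (hact : ∀ (g : G) (u v : V), X.Adj u v → X.Adj (g • u) (g • v)) :
    (∀ x : V, ∃ R, ∀ g : G, X.dist x (g • x) ≤ R) ∨
      ∃ (g : G) (x : V), ∀ n : ℕ, n ≤ X.dist x (g ^ n • x) := by
  obtain ⟨T, hT⟩ := Group.fg_def.mp hG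
  rcases hgood with ⟨h5, h6 | ⟨⟨k, hk⟩, hcl⟩⟩ | ⟨⟨n, hn⟩, h⟩
  · exact main_seven_all (wbr_bridged hX h5) (wbr_noHexagon hX h5 h6) hact hT
  · exact main_all (wbr_bridged hX h5) hk hact hT (Or.inl fun t _ => Or.inr hcl)
  · have hfour : ∃ k, FourPoint X k := by
      rcases h with h6 | hk
      · exact ⟨10, fourPoint_ten hX h6⟩
      · exact hk
    obtain ⟨k, hk⟩ := hfour
    exact main_fin hX (ω := n) (hn.mono (Nat.le_succ n)) hk hact hT

theorem piece_wbr (hX : Bucolic X) {C : Set V} (hC : Gated X C) (hS : NoSqIn X C) :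
    WBr (X.induce C) :=
  ⟨induce_conn hX.conn hC, induce_tc hX hC, induce_qc hX hC, induce_noSq hS⟩

/-- Bucolic graphs with good pieces. -/
theorem main_good (hX : Bucolic X) {D : ℕ}
    (hD : ∀ f : (Fin (D + 1) → Bool) → V, ¬ ∀ a b, X.dist (f a) (f b) = hammingDist a b)
    (hact : ActsBy X G) (hG : Group.FG G)
    (hell : ∀ (g : G) (x : V), ∃ R : ℕ, ∀ n : ℕ, X.dist x (g ^ n • x) ≤ R)
    (hgood : ∀ C : Set V, Gated X C → NoSqIn X C → Good (X.induce C)) :
    ∀ x : V, ∃ R : ℕ, ∀ g : G, X.dist x (g • x) ≤ R := by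
  obtain ⟨H, k, C, act, hfin, hC, hadj, hel, hiff⟩ := structure_thm hX hD hact hG hell
  refine hiff.1 fun j c => ?_
  have hwb := piece_wbr hX (hC j).1 (hC j).2
  have hdist := induce_dist hX.conn (hC j).1
  have hHfg : Group.FG H := by
    have := hG
    have := hfin
    infer_instance
  let _ := act j
  have hact' : ∀ (g : H) (u v : C j), (X.induce (C j)).Adj u v →
      (X.induce (C j)).Adj (g • u) (g • v) := fun g u v huv => hadj j g u v huv
  rcases good_main hwb (hgood _ (hC j).1 (hC j).2) hHfg hact' with h1 | ⟨g, x, hx⟩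
  · obtain ⟨R, hR⟩ := h1 c
    refine ⟨R, fun g => ?_⟩
    have h2 := hR g
    rw [hdist] at h2
    exact h2
  · obtain ⟨R, hR⟩ := hel j g x
    have h2 := hx (R + 1)
    rw [hdist] at h2
    have h3 := hR (R + 1)
    exact absurd (h2.trans h3) (by omega)

/-- Induced subgraphs of good graphs on gated sets are good. -/
theorem good_induce (hX : X.Connected) {C : Set V} (hC : Gated X C) (h : Good X) :
    Good (X.induce C) := by
  have hdist := induce_dist hX hC
  have hyp : Hyperbolic X → Hyperbolic (X.induce C) := by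
    rintro ⟨k, hk⟩
    refine ⟨k, ?_⟩
    intro a b c d
    rw [hdist, hdist, hdist, hdist, hdist, hdist]
    exact hk a b c d
  rcases h with ⟨h5, h6 | ⟨hk, hcl⟩⟩ | ⟨⟨n, hn⟩, h⟩
  · exact Or.inl ⟨induce_noWheel5 h5, Or.inl (induce_noWheel6 h6)⟩
  · refine Or.inl ⟨induce_noWheel5 h5, Or.inr ⟨hyp hk, fun S hS => ?_⟩⟩
    have h1 : X.IsClique (Subtype.val '' S) := by
      rintro _ ⟨a, ha, rfl⟩ _ ⟨b, hb, rfl⟩ hab
      exact hS ha hb fun h => hab (congrArg Subtype.val h)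
    exact Set.Finite.of_finite_image (hcl _ h1) Subtype.val_injective.injOn
  · refine Or.inr ⟨⟨n, hn.comap ⟨(SimpleGraph.Embedding.induce C).toCopy⟩⟩, ?_⟩
    rcases h with h6 | hk
    · exact Or.inl (induce_noWheel6 h6)
    · exact Or.inr (hyp hk)

end Pool.Agent.Lib.MP_1211f9_al.WB
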